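import Pool.Agent.Run7.h310.SQ.F5
import Pool.Agent.Run7.h310.SP.C1
import Pool.Agent.Run7.h701.SQ_CRED

set_option autoImplicit false

/-!
# The large values of zeta along every vertical arithmetic progression near the critical line

The points are `1/2 + d + i (α n + β)`, `n < N`, for arbitrary real `α > 0` and `β`; `d = d(N) → 0` slowly. For all real
`V > 0`, `c > 0` the proportion of the points with `|ζ| > c (2d)^(-V)` is asymptotically a constant times the density of
these values on the line; the constant comes from the integers `j` with `exp (2πj/α)` rational, it is `1` if there are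
none but `j = 0`.

Plan, limit theorem, twisted sums with complex exponents, resonances and assembly by helper310; the complex moments at
sample points (`Run7/h701/SQ_CRED.lean`) by helper701 and the passage from mean squares to sample points by helper270, on
the starting library `N748/MG`.
-/

namespace Pool.Agent.Results.MP_3d0d30_nt.LargeValuesInProgressions

open Filter Topology

/-- the coefficients of `(1 - x)^(-V)` -/
noncomputable def cf (V : ℝ) (m : ℕ) : ℝ := ∏ i ∈ Finset.range m, (V + i) / ((i : ℝ) + 1)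

/-- the arithmetic factor of the moment conjecture -/
noncomputable def ak (V : ℝ) : ℝ :=
  ∏' p : Nat.Primes, ((1 - 1 / (p : ℝ)) ^ (V ^ 2) * ∑' m : ℕ, cf V m ^ 2 * (1 / (p : ℝ)) ^ m)

/-- the local factor: the coefficient sums at the prime `p` with shifts `u` and `v` -/
noncomputable def lf (V : ℝ) (p u v : ℕ) : ℝ :=
  ∑' m : ℕ, cf V (m + u) * cf V (m + v) * (p : ℝ) ^ (-((2 * m + u + v : ℕ) : ℝ) / 2)

/-- the factor of the twist by `a/b`: a product over the primes dividing `ab` -/
noncomputable def tau (V : ℝ) (a b : ℕ) : ℝ :=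
  ∏ p ∈ (a * b).primeFactors, lf V p (a.factorization p) (b.factorization p) / lf V p 0 0

/-- the modulus of zeta at distance `d` from the critical line and height `t` -/
noncomputable def z (d t : ℝ) : ℝ := ‖riemannZeta (1 / 2 + d + t * Complex.I)‖

open Classical in
/-- the proportion of the first `N` points of the progression at which `|ζ| > l` -/
noncomputable def P (l d α β : ℝ) (N : ℕ) : ℝ :=
  (((Finset.range N).filter fun n : ℕ => l < z d (α * n + β)).card : ℝ) / N

/-- the asymptotic relative measure of the set of the heights at which `|ζ| > c (2d)^(-V)` -/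
noncomputable def F (V c d : ℝ) : ℝ :=
  ak V * c ^ (-(2 * V)) / (2 * V) * (2 * d) ^ (V ^ 2) / Real.sqrt (Real.pi * Real.log (1 / (2 * d)))

open Run7.h310.SP Run7.h310.SQ Pool.Agent.N748.MG

lemma tau_eq (k : ℝ) (a b : ℕ) : tau k a b = tw k a b := by
  unfold tau tw
  refine Finset.prod_congr rfl fun p hp => ?_
  have hp1 : 1 ≤ p := (Nat.prime_of_mem_primeFactors hp).one_lt.le
  rw [LF_zero_eq k hp1, LF_zero_eq k hp1]
  rfl

lemma rat_iff {α : ℝ} (hα : 0 < α) {a b : ℕ} (ha : 1 ≤ a) (hb : 1 ≤ b) (j : ℤ) :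
    α * (Real.log b - Real.log a) = 2 * Real.pi * j ↔ (b : ℝ) / a = Real.exp (2 * Real.pi * j / α) := by
  have haR : (0:ℝ) < a := by exact_mod_cast ha
  have hbR : (0:ℝ) < b := by exact_mod_cast hb
  rw [← Real.log_div hbR.ne' haR.ne']
  constructor
  · intro h
    have h1 : Real.log (b / a) = 2 * Real.pi * j / α := by
      rw [eq_div_iff hα.ne']
      linarith
    rw [← h1, Real.exp_log (by positivity)]
  · intro h
    rw [h, Real.log_exp]
    field_simp

lemma level {d : ℕ → ℝ} (hd0 : ∀ᶠ N in atTop, 0 < d N) (hd : Tendsto d atTop (𝓝 0)) {V : ℝ} (hV : 0 < V) (c : ℝ) :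
    ∀ᶠ N in atTop, 0 < Real.log c + V * Real.log (1 / (2 * d N)) := by
  have hfl : Tendsto (fun T : ℝ => ⌊T⌋₊) atTop atTop := tendsto_nat_floor_atTop
  have h := ev_level (d := fun T : ℝ => d ⌊T⌋₊) (hfl.eventually hd0) (hd.comp hfl) hV c
  have h2 := tendsto_natCast_atTop_atTop.eventually h
  filter_upwards [h2] with N hN
  rwa [Nat.floor_natCast] at hN

theorem result (α β : ℝ) (hα : 0 < α) (V : ℝ) (hV : 0 < V) : 0 < ak V ∧ ∃ r : ℤ → ℝ,
    (∀ (j : ℤ) (a b : ℕ), 1 ≤ a → 1 ≤ b → Nat.Coprime a b → (b : ℝ) / a = Real.exp (2 * Real.pi * j / α) →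
      r j = tau V a b) ∧
    (∀ j : ℤ, (∀ q : ℚ, (q : ℝ) ≠ Real.exp (2 * Real.pi * j / α)) → r j = 0) ∧
    Summable (fun j : ℤ => r j * Real.cos (2 * Real.pi * j * β / α)) ∧
    ∀ (c : ℝ), 0 < c → ∀ d : ℕ → ℝ, (∀ᶠ N in atTop, 0 < d N) → Tendsto d atTop (𝓝 0) →
      Tendsto (fun N : ℕ => d N * Real.log N / Real.log (1 / d N) ^ 2) atTop atTop →
      Tendsto (fun N : ℕ => P (c * (2 * d N) ^ (-V)) (d N) α β N / F V c (d N)) atTop
        (𝓝 (∑' j : ℤ, r j * Real.cos (2 * Real.pi * j * β / α))) := by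
  classical
  have hak : ak V = akR V := rfl
  have hpos : 0 < ak V := (aC_akR V).1
  refine ⟨hpos, res V α, ?_, ?_, ?_, ?_⟩
  · intro j a b ha hb hab h
    have h1 := (rat_iff hα ha hb j).2 h
    rw [res_eq hα ha hb hab h1, tau_eq]
  · intro j hj
    unfold res
    rw [dif_neg]
    rintro ⟨q, h1, h2, h3, h4⟩
    have h5 := (rat_iff hα h1 h2 j).1 h4
    refine hj ((q.2 : ℚ) / q.1) ?_
    push_cast
    exact h5
  · exact res_summable hV hα β
  · intro c hc d hd0 hd hdL
    have h := ap_ld (t_ctw nicF) Run7.h701.SP.t_CRED hα β hd0 hd hdL hV (hI c) {Real.log c} (hI_meas c) (hI_cont c)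
      (hI_bd1 c) (hI_bd2 c hV)
    rw [hI_int hc hV, aC_re, ← hak] at h
    have hK : 0 < ak V * (c ^ (-(2 * V)) / (2 * V)) := mul_pos hpos (div_pos (Real.rpow_pos_of_pos hc _) (by linarith))
    have h2 := h.div_const (ak V * (c ^ (-(2 * V)) / (2 * V)))
    have e0 : ak V * cAP V α β * (c ^ (-(2 * V)) / (2 * V)) / (ak V * (c ^ (-(2 * V)) / (2 * V))) = cAP V α β := by
      rw [div_eq_iff hK.ne']
      ring
    rw [e0] at h2
    unfold cAP at h2
    refine h2.congr' ?_
    filter_upwards [hd0, hd.eventually_lt_const (show (0:ℝ) < 1 / 4 by norm_num), level hd0 hd hV c] with N g1 g2 g3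
    have h3 : (0:ℝ) < 2 * d N := by linarith
    have hlog : 0 < Real.log (1 / (2 * d N)) := by
      apply Real.log_pos
      rw [lt_div_iff₀ h3]
      linarith
    have hs : 0 < Real.sqrt (Real.pi * Real.log (1 / (2 * d N))) := Real.sqrt_pos.2 (mul_pos Real.pi_pos hlog)
    have h4 : (2 * d N) ^ (-(V ^ 2)) = ((2 * d N) ^ (V ^ 2))⁻¹ := Real.rpow_neg h3.le _
    have h5 : (0:ℝ) < (2 * d N) ^ (V ^ 2) := Real.rpow_pos_of_pos h3 _
    have e3 : F V c (d N) = (ak V * (c ^ (-(2 * V)) / (2 * V))) / GN V (d N) := by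
      unfold F GN
      rw [h4]
      field_simp
    have hG : 0 < GN V (d N) := by
      unfold GN
      rw [h4]
      positivity
    have e4 : ∑ i ∈ Finset.range N, hI c (LV V (d N) (α * i + β)) =
        (((Finset.range N).filter fun n : ℕ => c * (2 * d N) ^ (-V) < z (d N) (α * n + β)).card : ℝ) := by
      rw [Finset.card_filter]
      push_cast
      refine Finset.sum_congr rfl fun i _ => ?_
      exact hI_XV g1 hc g3
    rw [e4, e3]
    unfold P
    rw [div_div_eq_mul_div]
    congr 1
    ring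

end Pool.Agent.Results.MP_3d0d30_nt.LargeValuesInProgressions
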