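import Pool.Agent.Run7.h310.SP.C1

set_option autoImplicit false

/-!
# The moments of all orders of zeta near the critical line, sampled along almost every dilation of a separated sequence

Plan, exponential sums and assembly by helper310; the passage from mean squares to sample points by helper270 and
helper701 on the starting library `N748/MG`.
-/

namespace Pool.Agent.Results.MP_80d0cf_nt.MetricSampling

open Filter Topology MeasureTheory

/-- the arithmetic factor of the moment conjecture,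
`a(k) = ∏_p (1 - 1/p)^{k²} Σ_m (k (k+1) ... (k+m-1) / m!)² p^{-m}` -/
noncomputable def ak (k : ℝ) : ℝ :=
  ∏' p : Nat.Primes, ((1 - 1 / (p : ℝ)) ^ (k ^ 2) *
    ∑' m : ℕ, (∏ i ∈ Finset.range m, (k + i) / ((i : ℝ) + 1)) ^ 2 * (1 / (p : ℝ)) ^ m)

/-- the modulus of zeta at distance `d` from the critical line and height `t` -/
noncomputable def z (d t : ℝ) : ℝ := ‖riemannZeta (1 / 2 + d + t * Complex.I)‖

open Classical in
/-- the moment of order `2k` over the first `N` points `α x_n + β` at which `|ζ| ≤ c` -/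
noncomputable def M (k c d α β : ℝ) (x : ℕ → ℝ) (N : ℕ) : ℝ :=
  (1 / (N : ℝ)) * ∑ n ∈ Finset.range N, if z d (α * x n + β) ≤ c then z d (α * x n + β) ^ (2 * k) else 0

open Run7.h310.SP Pool.Agent.N748.MG

lemma M_eq (k c d α β : ℝ) (x : ℕ → ℝ) (N : ℕ) : M k c d α β x N = MI k c d (fun i => α * x i + β) N := by
  classical
  unfold M MI
  rw [Finset.sum_filter]
  rfl

theorem result (s : ℝ) (hs : 0 < s) (x : ℕ → ℝ) (hx0 : ∀ n, 0 ≤ x n) (hx : ∀ m n, m ≠ n → s ≤ |x m - x n|) :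
    ∀ᵐ α : ℝ, 0 < α → ∀ (β : ℝ) (d : ℕ → ℝ) (D : ℝ), (∀ᶠ N in atTop, 0 < d N) → Tendsto d atTop (𝓝 0) →
      Tendsto (fun N : ℕ => d N * Real.log N / Real.log (1 / d N) ^ 2) atTop atTop →
      (∀ᶠ N : ℕ in atTop, ∀ n < N, x n ≤ N * d N ^ (-D)) → ∀ k V : ℝ, 0 < k → k < V →
      0 < ak k ∧ Tendsto (fun N : ℕ => M k ((2 * d N) ^ (-V)) (d N) α β x N / (ak k * (2 * d N) ^ (-(k ^ 2)))) atTop
        (𝓝 1) := by
  filter_upwards [ms_fin redF hs hx0 hx] with α hα hα0 β d D hd0 hd hdL hgr k V hk hV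
  have hak : ak k = akR k := rfl
  have hpos : 0 < ak k := (aC_akR k).1
  refine ⟨hpos, ?_⟩
  have h := hα hα0 β d D hd0 hd hdL hgr k V hk hV
  rw [aC_re, ← hak] at h
  have h2 := h.div_const (ak k)
  rw [div_self hpos.ne'] at h2
  refine h2.congr' ?_
  filter_upwards [hd0] with N hN
  rw [M_eq]
  have h3 : (0:ℝ) < 2 * d N := by linarith
  have h4 : (2 * d N) ^ (-(k ^ 2)) = ((2 * d N) ^ (k ^ 2))⁻¹ := Real.rpow_neg h3.le _
  have h5 : (0:ℝ) < (2 * d N) ^ (k ^ 2) := Real.rpow_pos_of_pos h3 _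
  rw [h4]
  field_simp

end Pool.Agent.Results.MP_80d0cf_nt.MetricSampling
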